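import Mathlib

set_option autoImplicit false
set_option maxRecDepth 100000

namespace Pool.Agent.Results.MP_052694_co.Counter

/-- `g` is the nim-sequence of the subtraction set `S`: each value is the mex of its options -/
def IsNim (S : Finset ℕ) (g : ℕ → ℕ) : Prop :=
  ∀ n, IsLeast {m | ∀ s ∈ S, s ≤ n → g (n - s) ≠ m} (g n)

/-- the zero-indicator -/
def ind (g : ℕ → ℕ) (n : ℕ) : ℕ := if g n = 0 then 0 else 1

/-- `p` is the period of the ultimately periodic sequence `a` -/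
def IsPeriod (a : ℕ → ℕ) (p : ℕ) : Prop :=
  IsLeast {q | 1 ≤ q ∧ ∃ n₀, ∀ n, n₀ ≤ n → a (n + q) = a n} p

def S : Finset ℕ := {2, 3, 5, 8, 9, 10}

def tb (i : ℕ) : ℕ :=
  [0, 0, 1, 1, 2, 2, 3, 0, 4, 1, 3, 2, 4, 0, 0, 1, 1, 2, 2, 4, 0, 3, 1, 4, 2, 3].getD i 0

def g0 (n : ℕ) : ℕ := tb (n % 26)

lemma per (n k : ℕ) : g0 (n + 26 * k) = g0 n := by simp [g0]

lemma small : ∀ n < 36, (∀ s ∈ S, s ≤ n → g0 (n - s) ≠ g0 n) ∧
    ∀ m < g0 n, ∃ s ∈ S, s ≤ n ∧ g0 (n - s) = m := by decide +kernel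

lemma nim0 : IsNim S g0 := by
  intro n
  have key : (∀ s ∈ S, s ≤ n → g0 (n - s) ≠ g0 n) ∧
      ∀ m < g0 n, ∃ s ∈ S, s ≤ n ∧ g0 (n - s) = m := by
    by_cases h : n < 36
    · exact small n h
    · obtain ⟨r, k, hr, hr2, rfl⟩ : ∃ r k, 10 ≤ r ∧ r < 36 ∧ n = r + 26 * k :=
        ⟨10 + (n - 10) % 26, (n - 10) / 26, by omega, by omega, by omega⟩
      have le : ∀ s ∈ S, s ≤ 10 := by decide
      have e : ∀ s ∈ S, g0 (r + 26 * k - s) = g0 (r - s) := fun s hs => by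
        have := le s hs
        rw [show r + 26 * k - s = r - s + 26 * k by omega, per]
      obtain ⟨a, b⟩ := small r hr2
      rw [per]
      refine ⟨fun s hs _ => ?_, fun m hm => ?_⟩
      · rw [e s hs]; exact a s hs (by have := le s hs; omega)
      · obtain ⟨s, hs, h1, h2⟩ := b m hm
        exact ⟨s, hs, by omega, by rw [e s hs, h2]⟩
  refine ⟨key.1, fun m hm => ?_⟩
  by_contra hlt
  obtain ⟨s, hs, h1, h2⟩ := key.2 m (by omega)
  exact hm s hs h1 h2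

lemma uniq (g : ℕ → ℕ) (hg : IsNim S g) : g = g0 := by
  funext n
  induction n using Nat.strong_induction_on with
  | _ n ih =>
    have pos : ∀ s ∈ S, 0 < s := by decide
    have e : {m | ∀ s ∈ S, s ≤ n → g (n - s) ≠ m} = {m | ∀ s ∈ S, s ≤ n → g0 (n - s) ≠ m} := by
      ext m
      refine forall_congr' fun s => forall_congr' fun hs => forall_congr' fun h => ?_
      rw [ih (n - s) (by have := pos s hs; omega)]
    exact (hg n).unique (e ▸ nim0 n)

lemma low (a : ℕ → ℕ) (ha : ∀ n k, a (n + 26 * k) = a n) (p : ℕ)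
    (h : ∀ q < p, 1 ≤ q → ∃ i < 26, a (i + q) ≠ a i) :
    p ∈ lowerBounds {q | 1 ≤ q ∧ ∃ n₀, ∀ n, n₀ ≤ n → a (n + q) = a n} := by
  rintro q ⟨h1, n₀, h2⟩
  by_contra hlt
  obtain ⟨i, -, hi⟩ := h q (by omega) h1
  have := h2 (i + 26 * n₀) (by omega)
  rw [show i + 26 * n₀ + q = i + q + 26 * n₀ by omega, ha, ha] at this
  exact hi this

theorem result : ∃ T : Finset ℕ, T.Nonempty ∧ (∀ s ∈ T, 0 < s) ∧ (∃ g, IsNim T g) ∧
    ∀ g, IsNim T g → IsPeriod g 26 ∧ IsPeriod (ind g) 13 := by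
  refine ⟨S, by decide, by decide, ⟨g0, nim0⟩, fun g hg => ?_⟩
  rw [uniq g hg]
  have pi : ∀ n k, ind g0 (n + 26 * k) = ind g0 n := fun n k => by simp [ind, per]
  refine ⟨⟨⟨by norm_num, 0, fun n _ => per n 1⟩, low g0 per 26 (by decide +kernel)⟩,
    ⟨by norm_num, 0, fun n _ => ?_⟩, low _ pi 13 (by decide +kernel)⟩
  have s : ∀ r < 26, ind g0 (r + 13) = ind g0 r := by decide +kernel
  have := s (n % 26) (Nat.mod_lt _ (by norm_num))
  rw [← pi (n % 26 + 13) (n / 26), ← pi (n % 26) (n / 26)] at this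
  rwa [show n % 26 + 13 + 26 * (n / 26) = n + 13 by omega,
    show n % 26 + 26 * (n / 26) = n by omega] at this

end Pool.Agent.Results.MP_052694_co.Counter
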